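import Mathlib

/-!
# Edge-magic total labelings: definitions and a criterion for two cycles of equal length
-/

set_option autoImplicit false

namespace Pool.Agent.W5h70.EMT

open SimpleGraph

/-- `lam` is an edge-magic total labeling of `G` with magic sum `k`: `lam` is a bijection from the
vertices and the edges of `G` onto `{1, …, v + e}`, where `v` and `e` are the numbers of the vertices
and of the edges, and `lam x + lam (xy) + lam y = k` for every edge `xy`. -/
def IsEMTLabeling {V : Type*} (G : SimpleGraph V) (lam : V ⊕ G.edgeSet → ℕ) (k : ℕ) : Prop :=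
  Set.BijOn lam Set.univ (Set.Icc 1 (Nat.card V + Nat.card G.edgeSet)) ∧
    ∀ (x y : V) (h : G.Adj x y),
      lam (Sum.inl x) + lam (Sum.inr ⟨s(x, y), G.mem_edgeSet.2 h⟩) + lam (Sum.inl y) = k

/-- `G` is edge-magic total. -/
def EdgeMagicTotal {V : Type*} (G : SimpleGraph V) : Prop :=
  ∃ (lam : V ⊕ G.edgeSet → ℕ) (k : ℕ), IsEMTLabeling G lam k

section key

variable {n : ℕ}

/-- The two cycles. -/
abbrev CC (n : ℕ) : SimpleGraph (Fin n ⊕ Fin n) := cycleGraph n ⊕g cycleGraph n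

/-- The next vertex on a cycle. -/
def nx (i : Fin n) : Fin n := ⟨(i.val + 1) % n, Nat.mod_lt _ (by have := i.2; omega)⟩

lemma nx_val (i : Fin n) : (nx i).val = if i.val + 1 < n then i.val + 1 else 0 := by
  have := i.2
  simp only [nx]
  split_ifs with h
  · exact Nat.mod_eq_of_lt h
  · have : i.val + 1 = n := by omega
    rw [this, Nat.mod_self]

lemma adj_iff (hn : 3 ≤ n) (i j : Fin n) : (cycleGraph n).Adj i j ↔ j = nx i ∨ i = nx j := by
  rw [cycleGraph_adj']
  have hi := i.2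
  have hj := j.2
  have h1 : ∀ i j : Fin n, (i - j).val = 1 ↔ i = nx j := by
    intro i j
    have hi := i.2
    have hj := j.2
    rw [Fin.ext_iff, nx_val, Fin.sub_def]
    simp only
    constructor
    · intro h
      split_ifs with h2
      · rcases Nat.lt_or_ge (n - j.val + i.val) n with h3 | h3
        · rw [Nat.mod_eq_of_lt h3] at h; omega
        · rw [Nat.mod_eq_sub_mod h3, Nat.mod_eq_of_lt (by omega)] at h; omega
      · rcases Nat.lt_or_ge (n - j.val + i.val) n with h3 | h3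
        · rw [Nat.mod_eq_of_lt h3] at h; omega
        · rw [Nat.mod_eq_sub_mod h3, Nat.mod_eq_of_lt (by omega)] at h; omega
    · intro h
      split_ifs at h with h2
      · rw [Nat.mod_eq_sub_mod (by omega), Nat.mod_eq_of_lt (by omega)]; omega
      · rw [Nat.mod_eq_of_lt (by omega)]; omega
  rw [h1, h1]
  tauto

/-- The edge from a vertex to the next one. -/
def ed : Fin n ⊕ Fin n → Sym2 (Fin n ⊕ Fin n)
  | Sum.inl i => s(Sum.inl i, Sum.inl (nx i))
  | Sum.inr i => s(Sum.inr i, Sum.inr (nx i))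

lemma ed_mem (hn : 3 ≤ n) (v : Fin n ⊕ Fin n) : ed v ∈ (CC n).edgeSet := by
  rcases v with i | i
  · simp only [ed, mem_edgeSet, sum_adj_inl]
    exact (adj_iff hn _ _).2 (Or.inl rfl)
  · simp only [ed, mem_edgeSet, sum_adj_inr]
    exact (adj_iff hn _ _).2 (Or.inl rfl)

lemma ed_surj (hn : 3 ≤ n) (e : Sym2 (Fin n ⊕ Fin n)) (he : e ∈ (CC n).edgeSet) :
    ∃ v, ed v = e := by
  induction e with
  | _ x y =>
    rw [mem_edgeSet] at he
    rcases x with i | i <;> rcases y with j | j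
    · rw [sum_adj_inl] at he
      rcases (adj_iff hn _ _).1 he with h | h
      · exact ⟨Sum.inl i, by simp [ed, h]⟩
      · exact ⟨Sum.inl j, by simp [ed, h, Sym2.eq_swap]⟩
    · simp [SimpleGraph.sum] at he
    · simp [SimpleGraph.sum] at he
    · rw [sum_adj_inr] at he
      rcases (adj_iff hn _ _).1 he with h | h
      · exact ⟨Sum.inr i, by simp [ed, h]⟩
      · exact ⟨Sum.inr j, by simp [ed, h, Sym2.eq_swap]⟩

lemma nx_nx (hn : 3 ≤ n) (i : Fin n) : nx (nx i) ≠ i := by
  intro h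
  have h1 := congrArg Fin.val h
  rw [nx_val, nx_val] at h1
  have := i.2
  split_ifs at h1 <;> omega

lemma ed_inj (hn : 3 ≤ n) : Function.Injective (ed (n := n)) := by
  intro v w h
  rcases v with i | i <;> rcases w with j | j
  · simp only [ed, Sym2.eq_iff, Sum.inl.injEq] at h
    rcases h with ⟨h, -⟩ | ⟨h1, h2⟩
    · rw [h]
    · exfalso
      rw [h1] at h2
      exact nx_nx hn j h2
  · simp [ed, Sym2.eq_iff] at h
  · simp [ed, Sym2.eq_iff] at h
  · simp only [ed, Sym2.eq_iff, Sum.inr.injEq] at h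
    rcases h with ⟨h, -⟩ | ⟨h1, h2⟩
    · rw [h]
    · exfalso
      rw [h1] at h2
      exact nx_nx hn j h2

lemma card_edges (hn : 3 ≤ n) : Nat.card (CC n).edgeSet = 2 * n := by
  have : Function.Bijective (fun v : Fin n ⊕ Fin n => (⟨ed v, ed_mem hn v⟩ : (CC n).edgeSet)) := by
    constructor
    · intro v w h
      exact ed_inj hn (Subtype.ext_iff.1 h)
    · rintro ⟨e, he⟩
      obtain ⟨v, hv⟩ := ed_surj hn e he
      exact ⟨v, Subtype.ext hv⟩
  rw [← Nat.card_congr (Equiv.ofBijective _ this)]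
  simp
  ring

/-- The criterion. -/
theorem key (hn : 3 ≤ n) (a b sa sb : ℕ → ℕ)
    (ha : ∀ i < n, 1 ≤ a i ∧ a i ≤ 2 * n + 1 ∧ a i ≠ n + 1)
    (hb : ∀ i < n, 1 ≤ b i ∧ b i ≤ 2 * n + 1 ∧ b i ≠ n + 1)
    (ia : ∀ i < n, ∀ j < n, a i = a j → i = j)
    (ib : ∀ i < n, ∀ j < n, b i = b j → i = j)
    (dab : ∀ i < n, ∀ j < n, a i ≠ b j)
    (hsa : ∀ i, i + 1 < n → a i + a (i + 1) = sa i) (hsa' : a (n - 1) + a 0 = sa (n - 1))
    (hsb : ∀ i, i + 1 < n → b i + b (i + 1) = sb i) (hsb' : b (n - 1) + b 0 = sb (n - 1))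
    (ra : ∀ i < n, (n + 2 ≤ sa i ∧ sa i ≤ 3 * n) ∨ sa i = 4 * n + 1)
    (rb : ∀ i < n, (n + 2 ≤ sb i ∧ sb i ≤ 3 * n) ∨ sb i = 4 * n + 1)
    (isa : ∀ i < n, ∀ j < n, sa i = sa j → i = j)
    (isb : ∀ i < n, ∀ j < n, sb i = sb j → i = j)
    (dsab : ∀ i < n, ∀ j < n, sa i ≠ sb j) :
    EdgeMagicTotal (CC n) := by
  set f : Fin n ⊕ Fin n → ℕ := Sum.elim (fun i => a i.val) (fun i => b i.val) with hf
  set S : Fin n ⊕ Fin n → ℕ := Sum.elim (fun i => sa i.val) (fun i => sb i.val) with hS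
  have fr : ∀ v, 1 ≤ f v ∧ f v ≤ 2 * n + 1 ∧ f v ≠ n + 1 := by
    rintro (i | i)
    · exact ha i i.2
    · exact hb i i.2
  have fi : ∀ v w, f v = f w → v = w := by
    rintro (i | i) (j | j) h
    · rw [Fin.ext (ia i i.2 j j.2 h)]
    · exact absurd h (dab i i.2 j j.2)
    · exact absurd h.symm (dab j j.2 i i.2)
    · rw [Fin.ext (ib i i.2 j j.2 h)]
  have Sr : ∀ v, (n + 2 ≤ S v ∧ S v ≤ 3 * n) ∨ S v = 4 * n + 1 := by
    rintro (i | i)
    · exact ra i i.2
    · exact rb i i.2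
  have Si : ∀ v w, S v = S w → v = w := by
    rintro (i | i) (j | j) h
    · rw [Fin.ext (isa i i.2 j j.2 h)]
    · exact absurd h (dsab i i.2 j j.2)
    · exact absurd h.symm (dsab j j.2 i i.2)
    · rw [Fin.ext (isb i i.2 j j.2 h)]
  set g : Sym2 (Fin n ⊕ Fin n) → ℕ := Sym2.lift ⟨fun x y => f x + f y, fun x y => add_comm _ _⟩
    with hg
  have gS : ∀ v, g (ed v) = S v := by
    rintro (i | i)
    · change a i.val + a (nx i).val = sa i.val
      have hi := i.2
      rw [nx_val]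
      split_ifs with h
      · exact hsa _ h
      · have : i.val = n - 1 := by omega
        rw [this]; exact hsa'
    · change b i.val + b (nx i).val = sb i.val
      have hi := i.2
      rw [nx_val]
      split_ifs with h
      · exact hsb _ h
      · have : i.val = n - 1 := by omega
        rw [this]; exact hsb'
  have gr : ∀ e ∈ (CC n).edgeSet, (n + 2 ≤ g e ∧ g e ≤ 3 * n) ∨ g e = 4 * n + 1 := by
    intro e he
    obtain ⟨v, rfl⟩ := ed_surj hn e he
    rw [gS]; exact Sr v
  have gi : ∀ e ∈ (CC n).edgeSet, ∀ e' ∈ (CC n).edgeSet, g e = g e' → e = e' := by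
    intro e he e' he' h
    obtain ⟨v, rfl⟩ := ed_surj hn e he
    obtain ⟨w, rfl⟩ := ed_surj hn e' he'
    rw [gS, gS] at h
    rw [Si v w h]
  set lam : (Fin n ⊕ Fin n) ⊕ (CC n).edgeSet → ℕ :=
    Sum.elim f (fun e => 5 * n + 2 - g e.1) with hlam
  have hcard : Nat.card (Fin n ⊕ Fin n) + Nat.card (CC n).edgeSet = 4 * n := by
    rw [card_edges hn]; simp; ring
  have hmaps : ∀ z, lam z ∈ Set.Icc 1 (4 * n) := by
    rintro (v | ⟨e, he⟩)
    · have := fr v
      change f v ∈ _
      rw [Set.mem_Icc]; omega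
    · have := gr e he
      change 5 * n + 2 - g e ∈ _
      rw [Set.mem_Icc]; omega
  have hinj : Function.Injective lam := by
    rintro (v | ⟨e, he⟩) (w | ⟨e', he'⟩) h
    · exact congrArg _ (fi v w h)
    · exfalso
      change f v = 5 * n + 2 - g e' at h
      have h1 := fr v
      have h2 := gr e' he'
      omega
    · exfalso
      change 5 * n + 2 - g e = f w at h
      have h1 := fr w
      have h2 := gr e he
      omega
    · change 5 * n + 2 - g e = 5 * n + 2 - g e' at h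
      have h1 := gr e he
      have h2 := gr e' he'
      have h3 := gi e he e' he' (by omega)
      subst h3
      rfl
  refine ⟨lam, 5 * n + 2, ⟨?_, ?_⟩⟩
  · rw [hcard]
    refine ⟨fun z _ => hmaps z, hinj.injOn, ?_⟩
    have h1 : (lam '' Set.univ) ⊆ Set.Icc 1 (4 * n) := by
      rintro _ ⟨z, -, rfl⟩; exact hmaps z
    have h2 : (lam '' Set.univ) = Set.Icc 1 (4 * n) := by
      apply Set.eq_of_subset_of_ncard_le h1 _ (Set.finite_Icc _ _)
      rw [Set.ncard_image_of_injective _ hinj, Set.ncard_univ, Nat.card_sum, hcard]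
      have : (Set.Icc 1 (4 * n)).ncard = 4 * n := by
        rw [Set.ncard_eq_toFinset_card', Set.toFinset_Icc, Nat.card_Icc]; omega
      rw [this]
    rw [Set.SurjOn, h2]
  · intro x y h
    have he : s(x, y) ∈ (CC n).edgeSet := (CC n).mem_edgeSet.2 h
    have h1 := gr _ he
    change f x + (5 * n + 2 - g s(x, y)) + f y = 5 * n + 2
    have h2 : g s(x, y) = f x + f y := rfl
    omega

end key

end Pool.Agent.W5h70.EMT
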