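import Pool.Agent.W5h70.EMT.Second

/-!
# Edge-magic total labelings of two cycles of length `4 m`: conclusion
-/

set_option autoImplicit false

namespace Pool.Agent.W5h70.EMT

/-- Interleaving two sequences. -/
def comb (x y : ℕ → ℕ) (i : ℕ) : ℕ := if i % 2 = 0 then x (i / 2) else y (i / 2)

lemma comb_even (x y : ℕ → ℕ) (t : ℕ) : comb x y (2 * t) = x t := by
  unfold comb
  rw [if_pos (by omega)]
  congr 1
  omega

lemma comb_odd (x y : ℕ → ℕ) (t : ℕ) : comb x y (2 * t + 1) = y t := by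
  unfold comb
  rw [if_neg (by omega)]
  congr 1
  omega

/-- injectivity of interleaved sequences -/
lemma comb_inj {x y : ℕ → ℕ} {h : ℕ} (hx : ∀ i j, i < j → j < h → x i ≠ x j)
    (hy : ∀ i j, i < j → j < h → y i ≠ y j) (hxy : ∀ i j, i < h → j < h → x i ≠ y j) :
    ∀ i < 2 * h, ∀ j < 2 * h, comb x y i = comb x y j → i = j := by
  intro i hi j hj e
  have e1 : ∀ {z : ℕ → ℕ}, (∀ i j, i < j → j < h → z i ≠ z j) → ∀ s t, s < h → t < h →
      z s = z t → s = t := by
    intro z hz s t hs ht hst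
    rcases lt_trichotomy s t with h1 | h1 | h1
    · exact absurd hst (hz s t h1 ht)
    · exact h1
    · exact absurd hst.symm (hz t s h1 hs)
  rcases Nat.even_or_odd' i with ⟨s, rfl | rfl⟩ <;> rcases Nat.even_or_odd' j with ⟨t, rfl | rfl⟩
  · rw [comb_even, comb_even] at e
    rw [e1 hx s t (by omega) (by omega) e]
  · rw [comb_even, comb_odd] at e
    exact absurd e (hxy s t (by omega) (by omega))
  · rw [comb_even, comb_odd] at e
    exact absurd e.symm (hxy t s (by omega) (by omega))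
  · rw [comb_odd, comb_odd] at e
    rw [e1 hy s t (by omega) (by omega) e]

lemma comb_ne {x y z w : ℕ → ℕ} {h : ℕ} (h1 : ∀ i j, i < h → j < h → x i ≠ z j)
    (h2 : ∀ i j, i < h → j < h → x i ≠ w j) (h3 : ∀ i j, i < h → j < h → y i ≠ z j)
    (h4 : ∀ i j, i < h → j < h → y i ≠ w j) :
    ∀ i < 2 * h, ∀ j < 2 * h, comb x y i ≠ comb z w j := by
  intro i hi j hj
  rcases Nat.even_or_odd' i with ⟨s, rfl | rfl⟩ <;> rcases Nat.even_or_odd' j with ⟨t, rfl | rfl⟩ <;>
    simp only [comb_even, comb_odd]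
  · exact h1 _ _ (by omega) (by omega)
  · exact h2 _ _ (by omega) (by omega)
  · exact h3 _ _ (by omega) (by omega)
  · exact h4 _ _ (by omega) (by omega)

lemma comb_all {x y : ℕ → ℕ} {h : ℕ} {P : ℕ → Prop} (h1 : ∀ t < h, P (x t))
    (h2 : ∀ t < h, P (y t)) : ∀ i < 2 * h, P (comb x y i) := by
  intro i hi
  rcases Nat.even_or_odd' i with ⟨s, rfl | rfl⟩ <;> simp only [comb_even, comb_odd]
  · exact h1 _ (by omega)
  · exact h2 _ (by omega)

lemma comb_sum {x y p q : ℕ → ℕ} {h : ℕ} (h1 : ∀ t < h, x t + y t = p t)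
    (h2 : ∀ t, t + 1 < h → y t + x (t + 1) = q t) :
    ∀ i, i + 1 < 2 * h → comb x y i + comb x y (i + 1) = comb p q i := by
  intro i hi
  rcases Nat.even_or_odd' i with ⟨s, rfl | rfl⟩
  · rw [comb_even, comb_odd, comb_even]
    exact h1 _ (by omega)
  · have : 2 * s + 1 + 1 = 2 * (s + 1) := by ring
    rw [this, comb_even, comb_odd, comb_odd]
    exact h2 _ (by omega)

lemma comb_last {x y p q : ℕ → ℕ} {h : ℕ} (hh : 1 ≤ h)
    (h1 : y (h - 1) + x 0 = q (h - 1)) :
    comb x y (2 * h - 1) + comb x y 0 = comb p q (2 * h - 1) := by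
  have h2 : 2 * h - 1 = 2 * (h - 1) + 1 := by omega
  have h3 : comb x y 0 = x 0 := comb_even x y 0
  rw [h2, comb_odd, comb_odd, h3]
  exact h1

/-- the first cycle -/
def ae (m t : ℕ) : ℕ := 4 * m + 2 + t

/-- the first cycle -/
def ao (m t : ℕ) : ℕ := if t < m then t + 1 else t + 2

/-- the sums along the first cycle -/
def pa (m t : ℕ) : ℕ := if t < m then 4 * m + 3 + 2 * t else 4 * m + 4 + 2 * t

/-- the sums along the first cycle -/
def qa (m t : ℕ) : ℕ :=
  if t < m then 4 * m + 4 + 2 * t else if t + 1 < 2 * m then 4 * m + 5 + 2 * t else 6 * m + 3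

lemma four {m : ℕ} (hm : 1 ≤ m) {e o p q : ℕ → ℕ} (G : GoodB m e o p q) :
    EdgeMagicTotal (CC (4 * m)) := by
  have h4 : 4 * m = 2 * (2 * m) := by ring
  have hao : ∀ t < 2 * m, (1 ≤ ao m t ∧ ao m t ≤ 2 * m + 1 ∧ ao m t ≠ m + 1) := by
    intro t ht; unfold ao; split_ifs <;> omega
  have hae : ∀ t < 2 * m, (4 * m + 2 ≤ ae m t ∧ ae m t ≤ 6 * m + 1) := by
    intro t ht; unfold ae; omega
  have hpa : ∀ t < 2 * m, (4 * m + 3 ≤ pa m t ∧ pa m t ≤ 8 * m + 2) := by
    intro t ht; unfold pa; split_ifs <;> omega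
  have hqa : ∀ t < 2 * m, (4 * m + 3 ≤ qa m t ∧ qa m t ≤ 8 * m + 2) := by
    intro t ht; unfold qa; split_ifs <;> omega
  refine key (n := 4 * m) (by omega) (comb (ae m) (ao m)) (comb e o) (comb (pa m) (qa m)) (comb p q)
    ?_ ?_ ?_ ?_ ?_ ?_ ?_ ?_ ?_ ?_ ?_ ?_ ?_ ?_
  · rw [h4]
    refine comb_all (P := fun x => 1 ≤ x ∧ x ≤ 2 * (2 * (2 * m)) + 1 ∧ x ≠ 2 * (2 * m) + 1) ?_ ?_
    · intro t ht; have := hae t ht; omega
    · intro t ht; have := hao t ht; omega
  · rw [h4]
    refine comb_all (P := fun x => 1 ≤ x ∧ x ≤ 2 * (2 * (2 * m)) + 1 ∧ x ≠ 2 * (2 * m) + 1) ?_ ?_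
    · intro t ht; have := G.re t ht; omega
    · intro t ht; have := G.ro t ht; omega
  · rw [h4]
    refine comb_inj ?_ ?_ ?_
    · intro i j hij hj; unfold ae; omega
    · intro i j hij hj; unfold ao; split_ifs <;> omega
    · intro i j hi hj; have := hae i hi; have := hao j hj; omega
  · rw [h4]
    exact comb_inj G.ee G.oo G.eo
  · rw [h4]
    refine comb_ne ?_ ?_ ?_ ?_
    · intro i j hi hj; have := hae i hi; have := G.re j hj; omega
    · intro i j hi hj; have := hae i hi; have := G.ro j hj; omega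
    · intro i j hi hj; have := hao i hi; have := G.re j hj; omega
    · intro i j hi hj; have := hao i hi; have := G.ro j hj; omega
  · rw [h4]
    refine comb_sum ?_ ?_
    · intro t ht; unfold ae ao pa; split_ifs <;> omega
    · intro t ht; unfold ae ao qa; split_ifs <;> omega
  · rw [h4]
    refine comb_last (by omega) ?_
    unfold ae ao qa; split_ifs <;> omega
  · rw [h4]
    exact comb_sum G.hp G.hq
  · rw [h4]
    exact comb_last (by omega) G.hq'
  · rw [h4]
    refine comb_all (P := fun x => (2 * (2 * m) + 2 ≤ x ∧ x ≤ 3 * (2 * (2 * m))) ∨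
      x = 4 * (2 * (2 * m)) + 1) ?_ ?_
    · intro t ht; have := hpa t ht; omega
    · intro t ht; have := hqa t ht; omega
  · rw [h4]
    refine comb_all (P := fun x => (2 * (2 * m) + 2 ≤ x ∧ x ≤ 3 * (2 * (2 * m))) ∨
      x = 4 * (2 * (2 * m)) + 1) ?_ ?_
    · intro t ht; have := G.rp t ht; omega
    · intro t ht; have := G.rq t ht; omega
  · rw [h4]
    refine comb_inj ?_ ?_ ?_
    · intro i j hij hj; unfold pa; split_ifs <;> omega
    · intro i j hij hj; unfold qa; split_ifs <;> omega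
    · intro i j hi hj; unfold pa qa; split_ifs <;> omega
  · rw [h4]
    exact comb_inj G.pp G.qq G.pq
  · rw [h4]
    refine comb_ne ?_ ?_ ?_ ?_
    · intro i j hi hj; have := hpa i hi; have := G.rp j hj; omega
    · intro i j hi hj; have := hpa i hi; have := G.rq j hj; omega
    · intro i j hi hj; have := hqa i hi; have := G.rp j hj; omega
    · intro i j hi hj; have := hqa i hi; have := G.rq j hj; omega

/-- a list as a function -/
def fl (l : List ℕ) (i : ℕ) : ℕ := l.getD i 0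

lemma EMT_four : EdgeMagicTotal (CC 4) := by
  refine key (n := 4) (by norm_num) (fl [1, 6, 3, 7]) (fl [2, 4, 8, 9]) (fl [7, 9, 10, 8])
    (fl [6, 12, 17, 11]) ?_ ?_ ?_ ?_ ?_ ?_ ?_ ?_ ?_ ?_ ?_ ?_ ?_ ?_ <;>
    first | decide | (intro i hi; replace hi : i < 3 := (by omega); revert i; decide)

lemma EMT_eight : EdgeMagicTotal (CC 8) := by
  refine key (n := 8) (by norm_num) (fl [1, 12, 11, 5, 10, 14, 6, 13]) (fl [2, 15, 7, 3, 8, 4, 17, 16])
    (fl [13, 23, 16, 15, 24, 20, 19, 14]) (fl [17, 22, 10, 11, 12, 21, 33, 18])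
    ?_ ?_ ?_ ?_ ?_ ?_ ?_ ?_ ?_ ?_ ?_ ?_ ?_ ?_ <;>
    first | decide | (intro i hi; replace hi : i < 7 := (by omega); revert i; decide)

/-- Two disjoint cycles of the same length, divisible by `4`, are edge-magic total. -/
theorem main (n : ℕ) (h4 : 4 ≤ n) (hn : 4 ∣ n) : EdgeMagicTotal (CC n) := by
  obtain ⟨m, rfl⟩ := hn
  have hm : 1 ≤ m := by omega
  have h3 : m = 3 * (m / 3) ∨ m = 3 * (m / 3) + 1 ∨ m = 3 * (m / 3) + 2 := by omega
  generalize m / 3 = k at h3
  rcases h3 with rfl | rfl | rfl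
  · exact four hm (good0 k (by omega))
  · rcases Nat.eq_zero_or_pos k with rfl | hk
    · exact EMT_four
    · exact four hm (good1 k hk)
  · rcases Nat.eq_zero_or_pos k with rfl | hk
    · exact EMT_eight
    · exact four hm (good2 k hk)

end Pool.Agent.W5h70.EMT
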