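import Pool.Agent.W5h70.EMT.Defs

/-!
# Edge-magic total labelings of two cycles of length `4 m`: the second cycle

The second cycle is `e 0, o 0, e 1, o 1, …`; the sums along the edges are `p t = e t + o t` and
`q t = o t + e (t + 1)`.
-/

set_option autoImplicit false

namespace Pool.Agent.W5h70.EMT

/-- The properties of the second cycle. -/
structure GoodB (m : ℕ) (e o p q : ℕ → ℕ) : Prop where
  re : ∀ t < 2 * m, e t = m + 1 ∨ (2 * m + 2 ≤ e t ∧ e t ≤ 4 * m) ∨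
    (6 * m + 2 ≤ e t ∧ e t ≤ 8 * m + 1)
  ro : ∀ t < 2 * m, o t = m + 1 ∨ (2 * m + 2 ≤ o t ∧ o t ≤ 4 * m) ∨
    (6 * m + 2 ≤ o t ∧ o t ≤ 8 * m + 1)
  ee : ∀ i j, i < j → j < 2 * m → e i ≠ e j
  oo : ∀ i j, i < j → j < 2 * m → o i ≠ o j
  eo : ∀ i j, i < 2 * m → j < 2 * m → e i ≠ o j
  hp : ∀ t < 2 * m, e t + o t = p t
  hq : ∀ t, t + 1 < 2 * m → o t + e (t + 1) = q t
  hq' : o (2 * m - 1) + e 0 = q (2 * m - 1)
  rp : ∀ t < 2 * m, p t = 4 * m + 2 ∨ (8 * m + 3 ≤ p t ∧ p t ≤ 12 * m) ∨ p t = 16 * m + 1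
  rq : ∀ t < 2 * m, q t = 4 * m + 2 ∨ (8 * m + 3 ≤ q t ∧ q t ≤ 12 * m) ∨ q t = 16 * m + 1
  pp : ∀ i j, i < j → j < 2 * m → p i ≠ p j
  qq : ∀ i j, i < j → j < 2 * m → q i ≠ q j
  pq : ∀ i j, i < 2 * m → j < 2 * m → p i ≠ q j

/-- the vertices with even index for `m = 3 * k` -/
def e0 (k t : ℕ) : ℕ :=
  if t < k then 24 * k + 1 - 3 * t else
  if t < 4 * k then 22 * k + 1 - t else
  if t < 5 * k then 36 * k - 1 - 3 * t else
  3 * t + 1 - 6 * k

lemma e0s (k t : ℕ) (hk : 1 ≤ k) (ht : t < 2 * (3 * k)) :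
    (t < k ∧ e0 k t + 3 * t = 24 * k + 1) ∨
    (k ≤ t ∧ t < 4 * k ∧ e0 k t + t = 22 * k + 1) ∨
    (4 * k ≤ t ∧ t < 5 * k ∧ e0 k t + 1 + 3 * t = 36 * k) ∨
    (5 * k ≤ t ∧ e0 k t + 6 * k = 3 * t + 1) := by
  have := hk
  have := ht
  unfold e0
  split_ifs
  · left; omega
  · right; left; omega
  · right; right; left; omega
  · right; right; right; omega

/-- the vertices with odd index for `m = 3 * k` -/
def o0 (k t : ℕ) : ℕ :=
  if t < k then 12 * k - 1 - 3 * t else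
  if t + 1 < 4 * k then 10 * k - t else
  if t + 1 < 5 * k then 24 * k - 3 - 3 * t else
  if t + 1 = 5 * k then 3 * k + 1 else
  6 * k + 3 + 3 * t

lemma o0s (k t : ℕ) (hk : 1 ≤ k) (ht : t < 2 * (3 * k)) :
    (t < k ∧ o0 k t + 1 + 3 * t = 12 * k) ∨
    (k ≤ t ∧ t + 1 < 4 * k ∧ o0 k t + t = 10 * k) ∨
    (4 * k ≤ t + 1 ∧ t + 1 < 5 * k ∧ o0 k t + 3 + 3 * t = 24 * k) ∨
    (5 * k ≤ t + 1 ∧ t + 1 = 5 * k ∧ o0 k t = 3 * k + 1) ∨
    (5 * k < t + 1 ∧ o0 k t = 6 * k + 3 + 3 * t) := by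
  have := hk
  have := ht
  unfold o0
  split_ifs
  · left; omega
  · right; left; omega
  · right; right; left; omega
  · right; right; right; left; omega
  · right; right; right; right; omega

/-- the sums `e t + o t` for `m = 3 * k` -/
def p0 (k t : ℕ) : ℕ :=
  if t < k then 36 * k - 6 * t else
  if t + 1 < 4 * k then 32 * k + 1 - 2 * t else
  if t + 1 = 4 * k then 30 * k + 2 else
  if t + 1 < 5 * k then 60 * k - 4 - 6 * t else
  if t + 1 = 5 * k then 24 * k + 3 else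
  6 * t + 4

lemma p0s (k t : ℕ) (hk : 1 ≤ k) (ht : t < 2 * (3 * k)) :
    (t < k ∧ p0 k t + 6 * t = 36 * k) ∨
    (k ≤ t ∧ t + 1 < 4 * k ∧ p0 k t + 2 * t = 32 * k + 1) ∨
    (4 * k ≤ t + 1 ∧ t + 1 = 4 * k ∧ p0 k t = 30 * k + 2) ∨
    (4 * k < t + 1 ∧ t + 1 < 5 * k ∧ p0 k t + 4 + 6 * t = 60 * k) ∨
    (5 * k ≤ t + 1 ∧ t + 1 = 5 * k ∧ p0 k t = 24 * k + 3) ∨
    (5 * k < t + 1 ∧ p0 k t = 6 * t + 4) := by
  have := hk
  have := ht
  unfold p0
  split_ifs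
  · left; omega
  · right; left; omega
  · right; right; left; omega
  · right; right; right; left; omega
  · right; right; right; right; left; omega
  · right; right; right; right; right; omega

/-- the sums `o t + e (t + 1)` for `m = 3 * k` -/
def q0 (k t : ℕ) : ℕ :=
  if t + 1 < k then 36 * k - 3 - 6 * t else
  if t + 1 = k then 30 * k + 3 else
  if t + 1 < 4 * k then 32 * k - 2 * t else
  if t + 1 < 5 * k then 60 * k - 7 - 6 * t else
  if t + 1 = 5 * k then 12 * k + 2 else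
  if t + 1 < 6 * k then 6 * t + 7 else
  48 * k + 1

lemma q0s (k t : ℕ) (hk : 1 ≤ k) (ht : t < 2 * (3 * k)) :
    (t + 1 < k ∧ q0 k t + 3 + 6 * t = 36 * k) ∨
    (k ≤ t + 1 ∧ t + 1 = k ∧ q0 k t = 30 * k + 3) ∨
    (k < t + 1 ∧ t + 1 < 4 * k ∧ q0 k t + 2 * t = 32 * k) ∨
    (4 * k ≤ t + 1 ∧ t + 1 < 5 * k ∧ q0 k t + 7 + 6 * t = 60 * k) ∨
    (5 * k ≤ t + 1 ∧ t + 1 = 5 * k ∧ q0 k t = 12 * k + 2) ∨
    (5 * k < t + 1 ∧ t + 1 < 6 * k ∧ q0 k t = 6 * t + 7) ∨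
    (6 * k ≤ t + 1 ∧ q0 k t = 48 * k + 1) := by
  have := hk
  have := ht
  unfold q0
  split_ifs
  · left; omega
  · right; left; omega
  · right; right; left; omega
  · right; right; right; left; omega
  · right; right; right; right; left; omega
  · right; right; right; right; right; left; omega
  · right; right; right; right; right; right; omega

lemma g0_re (k : ℕ) (hk : 1 ≤ k) : ∀ t < 2 * (3 * k), e0 k t = (3 * k) + 1 ∨ (2 * (3 * k) + 2 ≤ e0 k t ∧ e0 k t ≤ 4 * (3 * k)) ∨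
    (6 * (3 * k) + 2 ≤ e0 k t ∧ e0 k t ≤ 8 * (3 * k) + 1) :=
  fun t ht => by
    rcases e0s k t hk ht with h | h | h | h <;> omega

lemma g0_ro (k : ℕ) (hk : 1 ≤ k) : ∀ t < 2 * (3 * k), o0 k t = (3 * k) + 1 ∨ (2 * (3 * k) + 2 ≤ o0 k t ∧ o0 k t ≤ 4 * (3 * k)) ∨
    (6 * (3 * k) + 2 ≤ o0 k t ∧ o0 k t ≤ 8 * (3 * k) + 1) :=
  fun t ht => by
    rcases o0s k t hk ht with h | h | h | h | h <;> omega

lemma g0_ee (k : ℕ) (hk : 1 ≤ k) : ∀ i j, i < j → j < 2 * (3 * k) → e0 k i ≠ e0 k j :=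
  fun i j hij hj => by
    rcases e0s k i hk (by omega) with h | h | h | h <;>
    rcases e0s k j hk hj with h' | h' | h' | h' <;> omega

lemma g0_oo (k : ℕ) (hk : 1 ≤ k) : ∀ i j, i < j → j < 2 * (3 * k) → o0 k i ≠ o0 k j :=
  fun i j hij hj => by
    rcases o0s k i hk (by omega) with h | h | h | h | h <;>
    rcases o0s k j hk hj with h' | h' | h' | h' | h' <;> omega

lemma g0_eo (k : ℕ) (hk : 1 ≤ k) : ∀ i j, i < 2 * (3 * k) → j < 2 * (3 * k) → e0 k i ≠ o0 k j :=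
  fun i j hi hj => by
    rcases e0s k i hk hi with h | h | h | h <;>
    rcases o0s k j hk hj with h' | h' | h' | h' | h' <;> omega

lemma g0_hp (k : ℕ) (hk : 1 ≤ k) : ∀ t < 2 * (3 * k), e0 k t + o0 k t = p0 k t :=
  fun t ht => by
    rcases e0s k t hk ht with h1 | h1 | h1 | h1 <;>
    rcases o0s k t hk ht with h2 | h2 | h2 | h2 | h2 <;> try (exfalso; omega)
    all_goals rcases p0s k t hk ht with h3 | h3 | h3 | h3 | h3 | h3 <;> omega

lemma g0_hq (k : ℕ) (hk : 1 ≤ k) : ∀ t, t + 1 < 2 * (3 * k) → o0 k t + e0 k (t + 1) = q0 k t :=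
  fun t ht => by
    rcases e0s k (t + 1) hk ht with h1 | h1 | h1 | h1 <;>
    rcases o0s k t hk (by omega) with h2 | h2 | h2 | h2 | h2 <;> try (exfalso; omega)
    all_goals rcases q0s k t hk (by omega) with h3 | h3 | h3 | h3 | h3 | h3 | h3 <;> omega

lemma g0_hq' (k : ℕ) (hk : 1 ≤ k) : o0 k (2 * (3 * k) - 1) + e0 k 0 = q0 k (2 * (3 * k) - 1) :=
  by
    rcases e0s k 0 hk (by omega) with h1 | h1 | h1 | h1 <;>
    rcases o0s k (2 * (3 * k) - 1) hk (by omega) with h2 | h2 | h2 | h2 | h2 <;> try (exfalso; omega)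
    all_goals rcases q0s k (2 * (3 * k) - 1) hk (by omega) with h3 | h3 | h3 | h3 | h3 | h3 | h3 <;> omega

lemma g0_rp (k : ℕ) (hk : 1 ≤ k) : ∀ t < 2 * (3 * k), p0 k t = 4 * (3 * k) + 2 ∨ (8 * (3 * k) + 3 ≤ p0 k t ∧ p0 k t ≤ 12 * (3 * k)) ∨ p0 k t = 16 * (3 * k) + 1 :=
  fun t ht => by
    rcases p0s k t hk ht with h | h | h | h | h | h <;> omega

lemma g0_rq (k : ℕ) (hk : 1 ≤ k) : ∀ t < 2 * (3 * k), q0 k t = 4 * (3 * k) + 2 ∨ (8 * (3 * k) + 3 ≤ q0 k t ∧ q0 k t ≤ 12 * (3 * k)) ∨ q0 k t = 16 * (3 * k) + 1 :=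
  fun t ht => by
    rcases q0s k t hk ht with h | h | h | h | h | h | h <;> omega

lemma g0_pp (k : ℕ) (hk : 1 ≤ k) : ∀ i j, i < j → j < 2 * (3 * k) → p0 k i ≠ p0 k j :=
  fun i j hij hj => by
    rcases p0s k i hk (by omega) with h | h | h | h | h | h <;>
    rcases p0s k j hk hj with h' | h' | h' | h' | h' | h' <;> omega

lemma g0_qq (k : ℕ) (hk : 1 ≤ k) : ∀ i j, i < j → j < 2 * (3 * k) → q0 k i ≠ q0 k j :=
  fun i j hij hj => by
    rcases q0s k i hk (by omega) with h | h | h | h | h | h | h <;>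
    rcases q0s k j hk hj with h' | h' | h' | h' | h' | h' | h' <;> omega

lemma g0_pq (k : ℕ) (hk : 1 ≤ k) : ∀ i j, i < 2 * (3 * k) → j < 2 * (3 * k) → p0 k i ≠ q0 k j :=
  fun i j hi hj => by
    rcases p0s k i hk hi with h | h | h | h | h | h <;>
    rcases q0s k j hk hj with h' | h' | h' | h' | h' | h' | h' <;> omega

lemma good0 (k : ℕ) (hk : 1 ≤ k) : GoodB (3 * k) (e0 k) (o0 k) (p0 k) (q0 k) :=
  ⟨g0_re k hk, g0_ro k hk, g0_ee k hk, g0_oo k hk, g0_eo k hk, g0_hp k hk, g0_hq k hk, g0_hq' k hk, g0_rp k hk, g0_rq k hk, g0_pp k hk, g0_qq k hk, g0_pq k hk⟩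

/-- the vertices with even index for `m = 3 * k + 1` -/
def e1 (k t : ℕ) : ℕ :=
  if t < k + 1 then 24 * k + 9 - 3 * t else
  if t < 2 * k + 2 then 6 * k + 1 + 3 * t else
  if t < 5 * k + 2 then 4 * k + 2 + t else
  3 * t - 6 * k - 1

lemma e1s (k t : ℕ) (hk : 1 ≤ k) (ht : t < 2 * (3 * k + 1)) :
    (t < k + 1 ∧ e1 k t + 3 * t = 24 * k + 9) ∨
    (k + 1 ≤ t ∧ t < 2 * k + 2 ∧ e1 k t = 6 * k + 1 + 3 * t) ∨
    (2 * k + 2 ≤ t ∧ t < 5 * k + 2 ∧ e1 k t = 4 * k + 2 + t) ∨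
    (5 * k + 2 ≤ t ∧ e1 k t + 6 * k + 1 = 3 * t) := by
  have := hk
  have := ht
  unfold e1
  split_ifs
  · left; omega
  · right; left; omega
  · right; right; left; omega
  · right; right; right; omega

/-- the vertices with odd index for `m = 3 * k + 1` -/
def o1 (k t : ℕ) : ℕ :=
  if t < k then 12 * k + 3 - 3 * t else
  if t = k then 3 * k + 2 else
  if t < 2 * k + 1 then 18 * k + 7 + 3 * t else
  if t < 5 * k + 2 then 16 * k + 7 + t else
  6 * k + 5 + 3 * t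

lemma o1s (k t : ℕ) (hk : 1 ≤ k) (ht : t < 2 * (3 * k + 1)) :
    (t < k ∧ o1 k t + 3 * t = 12 * k + 3) ∨
    (k ≤ t ∧ t = k ∧ o1 k t = 3 * k + 2) ∨
    (k < t ∧ t < 2 * k + 1 ∧ o1 k t = 18 * k + 7 + 3 * t) ∨
    (2 * k + 1 ≤ t ∧ t < 5 * k + 2 ∧ o1 k t = 16 * k + 7 + t) ∨
    (5 * k + 2 ≤ t ∧ o1 k t = 6 * k + 5 + 3 * t) := by
  have := hk
  have := ht
  unfold o1
  split_ifs
  · left; omega
  · right; left; omega
  · right; right; left; omega
  · right; right; right; left; omega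
  · right; right; right; right; omega

/-- the sums `e t + o t` for `m = 3 * k + 1` -/
def p1 (k t : ℕ) : ℕ :=
  if t < k then 36 * k + 12 - 6 * t else
  if t = k then 24 * k + 11 else
  if t < 2 * k + 1 then 24 * k + 8 + 6 * t else
  if t = 2 * k + 1 then 30 * k + 12 else
  if t < 5 * k + 2 then 20 * k + 9 + 2 * t else
  6 * t + 4

lemma p1s (k t : ℕ) (hk : 1 ≤ k) (ht : t < 2 * (3 * k + 1)) :
    (t < k ∧ p1 k t + 6 * t = 36 * k + 12) ∨
    (k ≤ t ∧ t = k ∧ p1 k t = 24 * k + 11) ∨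
    (k < t ∧ t < 2 * k + 1 ∧ p1 k t = 24 * k + 8 + 6 * t) ∨
    (2 * k + 1 ≤ t ∧ t = 2 * k + 1 ∧ p1 k t = 30 * k + 12) ∨
    (2 * k + 1 < t ∧ t < 5 * k + 2 ∧ p1 k t = 20 * k + 9 + 2 * t) ∨
    (5 * k + 2 ≤ t ∧ p1 k t = 6 * t + 4) := by
  have := hk
  have := ht
  unfold p1
  split_ifs
  · left; omega
  · right; left; omega
  · right; right; left; omega
  · right; right; right; left; omega
  · right; right; right; right; left; omega
  · right; right; right; right; right; omega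

/-- the sums `o t + e (t + 1)` for `m = 3 * k + 1` -/
def q1 (k t : ℕ) : ℕ :=
  if t < k then 36 * k + 9 - 6 * t else
  if t = k then 12 * k + 6 else
  if t < 2 * k + 1 then 24 * k + 11 + 6 * t else
  if t < 5 * k + 1 then 20 * k + 10 + 2 * t else
  if t = 5 * k + 1 then 30 * k + 13 else
  if t < 6 * k + 1 then 6 * t + 7 else
  48 * k + 17

lemma q1s (k t : ℕ) (hk : 1 ≤ k) (ht : t < 2 * (3 * k + 1)) :
    (t < k ∧ q1 k t + 6 * t = 36 * k + 9) ∨
    (k ≤ t ∧ t = k ∧ q1 k t = 12 * k + 6) ∨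
    (k < t ∧ t < 2 * k + 1 ∧ q1 k t = 24 * k + 11 + 6 * t) ∨
    (2 * k + 1 ≤ t ∧ t < 5 * k + 1 ∧ q1 k t = 20 * k + 10 + 2 * t) ∨
    (5 * k + 1 ≤ t ∧ t = 5 * k + 1 ∧ q1 k t = 30 * k + 13) ∨
    (5 * k + 1 < t ∧ t < 6 * k + 1 ∧ q1 k t = 6 * t + 7) ∨
    (6 * k + 1 ≤ t ∧ q1 k t = 48 * k + 17) := by
  have := hk
  have := ht
  unfold q1
  split_ifs
  · left; omega
  · right; left; omega
  · right; right; left; omega
  · right; right; right; left; omega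
  · right; right; right; right; left; omega
  · right; right; right; right; right; left; omega
  · right; right; right; right; right; right; omega

lemma g1_re (k : ℕ) (hk : 1 ≤ k) : ∀ t < 2 * (3 * k + 1), e1 k t = (3 * k + 1) + 1 ∨ (2 * (3 * k + 1) + 2 ≤ e1 k t ∧ e1 k t ≤ 4 * (3 * k + 1)) ∨
    (6 * (3 * k + 1) + 2 ≤ e1 k t ∧ e1 k t ≤ 8 * (3 * k + 1) + 1) :=
  fun t ht => by
    rcases e1s k t hk ht with h | h | h | h <;> omega

lemma g1_ro (k : ℕ) (hk : 1 ≤ k) : ∀ t < 2 * (3 * k + 1), o1 k t = (3 * k + 1) + 1 ∨ (2 * (3 * k + 1) + 2 ≤ o1 k t ∧ o1 k t ≤ 4 * (3 * k + 1)) ∨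
    (6 * (3 * k + 1) + 2 ≤ o1 k t ∧ o1 k t ≤ 8 * (3 * k + 1) + 1) :=
  fun t ht => by
    rcases o1s k t hk ht with h | h | h | h | h <;> omega

lemma g1_ee (k : ℕ) (hk : 1 ≤ k) : ∀ i j, i < j → j < 2 * (3 * k + 1) → e1 k i ≠ e1 k j :=
  fun i j hij hj => by
    rcases e1s k i hk (by omega) with h | h | h | h <;>
    rcases e1s k j hk hj with h' | h' | h' | h' <;> omega

lemma g1_oo (k : ℕ) (hk : 1 ≤ k) : ∀ i j, i < j → j < 2 * (3 * k + 1) → o1 k i ≠ o1 k j :=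
  fun i j hij hj => by
    rcases o1s k i hk (by omega) with h | h | h | h | h <;>
    rcases o1s k j hk hj with h' | h' | h' | h' | h' <;> omega

lemma g1_eo (k : ℕ) (hk : 1 ≤ k) : ∀ i j, i < 2 * (3 * k + 1) → j < 2 * (3 * k + 1) → e1 k i ≠ o1 k j :=
  fun i j hi hj => by
    rcases e1s k i hk hi with h | h | h | h <;>
    rcases o1s k j hk hj with h' | h' | h' | h' | h' <;> omega

lemma g1_hp (k : ℕ) (hk : 1 ≤ k) : ∀ t < 2 * (3 * k + 1), e1 k t + o1 k t = p1 k t :=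
  fun t ht => by
    rcases e1s k t hk ht with h1 | h1 | h1 | h1 <;>
    rcases o1s k t hk ht with h2 | h2 | h2 | h2 | h2 <;> try (exfalso; omega)
    all_goals rcases p1s k t hk ht with h3 | h3 | h3 | h3 | h3 | h3 <;> omega

lemma g1_hq (k : ℕ) (hk : 1 ≤ k) : ∀ t, t + 1 < 2 * (3 * k + 1) → o1 k t + e1 k (t + 1) = q1 k t :=
  fun t ht => by
    rcases e1s k (t + 1) hk ht with h1 | h1 | h1 | h1 <;>
    rcases o1s k t hk (by omega) with h2 | h2 | h2 | h2 | h2 <;> try (exfalso; omega)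
    all_goals rcases q1s k t hk (by omega) with h3 | h3 | h3 | h3 | h3 | h3 | h3 <;> omega

lemma g1_hq' (k : ℕ) (hk : 1 ≤ k) : o1 k (2 * (3 * k + 1) - 1) + e1 k 0 = q1 k (2 * (3 * k + 1) - 1) :=
  by
    rcases e1s k 0 hk (by omega) with h1 | h1 | h1 | h1 <;>
    rcases o1s k (2 * (3 * k + 1) - 1) hk (by omega) with h2 | h2 | h2 | h2 | h2 <;> try (exfalso; omega)
    all_goals rcases q1s k (2 * (3 * k + 1) - 1) hk (by omega) with h3 | h3 | h3 | h3 | h3 | h3 | h3 <;> omega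

lemma g1_rp (k : ℕ) (hk : 1 ≤ k) : ∀ t < 2 * (3 * k + 1), p1 k t = 4 * (3 * k + 1) + 2 ∨ (8 * (3 * k + 1) + 3 ≤ p1 k t ∧ p1 k t ≤ 12 * (3 * k + 1)) ∨ p1 k t = 16 * (3 * k + 1) + 1 :=
  fun t ht => by
    rcases p1s k t hk ht with h | h | h | h | h | h <;> omega

lemma g1_rq (k : ℕ) (hk : 1 ≤ k) : ∀ t < 2 * (3 * k + 1), q1 k t = 4 * (3 * k + 1) + 2 ∨ (8 * (3 * k + 1) + 3 ≤ q1 k t ∧ q1 k t ≤ 12 * (3 * k + 1)) ∨ q1 k t = 16 * (3 * k + 1) + 1 :=
  fun t ht => by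
    rcases q1s k t hk ht with h | h | h | h | h | h | h <;> omega

lemma g1_pp (k : ℕ) (hk : 1 ≤ k) : ∀ i j, i < j → j < 2 * (3 * k + 1) → p1 k i ≠ p1 k j :=
  fun i j hij hj => by
    rcases p1s k i hk (by omega) with h | h | h | h | h | h <;>
    rcases p1s k j hk hj with h' | h' | h' | h' | h' | h' <;> omega

lemma g1_qq (k : ℕ) (hk : 1 ≤ k) : ∀ i j, i < j → j < 2 * (3 * k + 1) → q1 k i ≠ q1 k j :=
  fun i j hij hj => by
    rcases q1s k i hk (by omega) with h | h | h | h | h | h | h <;>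
    rcases q1s k j hk hj with h' | h' | h' | h' | h' | h' | h' <;> omega

lemma g1_pq (k : ℕ) (hk : 1 ≤ k) : ∀ i j, i < 2 * (3 * k + 1) → j < 2 * (3 * k + 1) → p1 k i ≠ q1 k j :=
  fun i j hi hj => by
    rcases p1s k i hk hi with h | h | h | h | h | h <;>
    rcases q1s k j hk hj with h' | h' | h' | h' | h' | h' | h' <;> omega

lemma good1 (k : ℕ) (hk : 1 ≤ k) : GoodB (3 * k + 1) (e1 k) (o1 k) (p1 k) (q1 k) :=
  ⟨g1_re k hk, g1_ro k hk, g1_ee k hk, g1_oo k hk, g1_eo k hk, g1_hp k hk, g1_hq k hk, g1_hq' k hk, g1_rp k hk, g1_rq k hk, g1_pp k hk, g1_qq k hk, g1_pq k hk⟩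

/-- the vertices with even index for `m = 3 * k + 2` -/
def e2 (k t : ℕ) : ℕ :=
  if t = 0 then 24 * k + 17 else
  if t < k + 1 then 24 * k + 16 - 3 * t else
  if t < 2 * k + 1 then 6 * k + 4 + 3 * t else
  if t < 3 * k + 1 then 18 * k + 8 - 3 * t else
  if t < 6 * k + 2 then 12 * k + 7 - t else
  if t = 6 * k + 2 then 12 * k + 8 else
  12 * k + 6

lemma e2s (k t : ℕ) (hk : 1 ≤ k) (ht : t < 2 * (3 * k + 2)) :
    (t = 0 ∧ e2 k t = 24 * k + 17) ∨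
    (0 < t ∧ t < k + 1 ∧ e2 k t + 3 * t = 24 * k + 16) ∨
    (k + 1 ≤ t ∧ t < 2 * k + 1 ∧ e2 k t = 6 * k + 4 + 3 * t) ∨
    (2 * k + 1 ≤ t ∧ t < 3 * k + 1 ∧ e2 k t + 3 * t = 18 * k + 8) ∨
    (3 * k + 1 ≤ t ∧ t < 6 * k + 2 ∧ e2 k t + t = 12 * k + 7) ∨
    (6 * k + 2 ≤ t ∧ t = 6 * k + 2 ∧ e2 k t = 12 * k + 8) ∨
    (6 * k + 2 < t ∧ e2 k t = 12 * k + 6) := by
  have := hk
  have := ht
  unfold e2
  split_ifs
  · left; omega
  · right; left; omega
  · right; right; left; omega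
  · right; right; right; left; omega
  · right; right; right; right; left; omega
  · right; right; right; right; right; left; omega
  · right; right; right; right; right; right; omega

/-- the vertices with odd index for `m = 3 * k + 2` -/
def o2 (k t : ℕ) : ℕ :=
  if t = 0 then 12 * k + 7 else
  if t < k then 12 * k + 6 - 3 * t else
  if t = k then 3 * k + 3 else
  if t < 2 * k + 1 then 18 * k + 14 + 3 * t else
  if t < 3 * k then 30 * k + 15 - 3 * t else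
  if t < 6 * k + 2 then 24 * k + 15 - t else
  if t = 6 * k + 2 then 24 * k + 15 else
  24 * k + 16

lemma o2s (k t : ℕ) (hk : 1 ≤ k) (ht : t < 2 * (3 * k + 2)) :
    (t = 0 ∧ o2 k t = 12 * k + 7) ∨
    (0 < t ∧ t < k ∧ o2 k t + 3 * t = 12 * k + 6) ∨
    (k ≤ t ∧ t = k ∧ o2 k t = 3 * k + 3) ∨
    (k < t ∧ t < 2 * k + 1 ∧ o2 k t = 18 * k + 14 + 3 * t) ∨
    (2 * k + 1 ≤ t ∧ t < 3 * k ∧ o2 k t + 3 * t = 30 * k + 15) ∨
    (3 * k ≤ t ∧ t < 6 * k + 2 ∧ o2 k t + t = 24 * k + 15) ∨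
    (6 * k + 2 ≤ t ∧ t = 6 * k + 2 ∧ o2 k t = 24 * k + 15) ∨
    (6 * k + 2 < t ∧ o2 k t = 24 * k + 16) := by
  have := hk
  have := ht
  unfold o2
  split_ifs
  · left; omega
  · right; left; omega
  · right; right; left; omega
  · right; right; right; left; omega
  · right; right; right; right; left; omega
  · right; right; right; right; right; left; omega
  · right; right; right; right; right; right; left; omega
  · right; right; right; right; right; right; right; omega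

/-- the sums `e t + o t` for `m = 3 * k + 2` -/
def p2 (k t : ℕ) : ℕ :=
  if t = 0 then 36 * k + 24 else
  if t < k then 36 * k + 22 - 6 * t else
  if t = k then 24 * k + 19 else
  if t < 2 * k + 1 then 24 * k + 18 + 6 * t else
  if t < 3 * k then 48 * k + 23 - 6 * t else
  if t = 3 * k then 30 * k + 23 else
  if t < 6 * k + 2 then 36 * k + 22 - 2 * t else
  if t = 6 * k + 2 then 36 * k + 23 else
  36 * k + 22

lemma p2s (k t : ℕ) (hk : 1 ≤ k) (ht : t < 2 * (3 * k + 2)) :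
    (t = 0 ∧ p2 k t = 36 * k + 24) ∨
    (0 < t ∧ t < k ∧ p2 k t + 6 * t = 36 * k + 22) ∨
    (k ≤ t ∧ t = k ∧ p2 k t = 24 * k + 19) ∨
    (k < t ∧ t < 2 * k + 1 ∧ p2 k t = 24 * k + 18 + 6 * t) ∨
    (2 * k + 1 ≤ t ∧ t < 3 * k ∧ p2 k t + 6 * t = 48 * k + 23) ∨
    (3 * k ≤ t ∧ t = 3 * k ∧ p2 k t = 30 * k + 23) ∨
    (3 * k < t ∧ t < 6 * k + 2 ∧ p2 k t + 2 * t = 36 * k + 22) ∨
    (6 * k + 2 ≤ t ∧ t = 6 * k + 2 ∧ p2 k t = 36 * k + 23) ∨
    (6 * k + 2 < t ∧ p2 k t = 36 * k + 22) := by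
  have := hk
  have := ht
  unfold p2
  split_ifs
  · left; omega
  · right; left; omega
  · right; right; left; omega
  · right; right; right; left; omega
  · right; right; right; right; left; omega
  · right; right; right; right; right; left; omega
  · right; right; right; right; right; right; left; omega
  · right; right; right; right; right; right; right; left; omega
  · right; right; right; right; right; right; right; right; omega

/-- the sums `o t + e (t + 1)` for `m = 3 * k + 2` -/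
def q2 (k t : ℕ) : ℕ :=
  if t = 0 then 36 * k + 20 else
  if t < k then 36 * k + 19 - 6 * t else
  if t = k then 12 * k + 10 else
  if t < 2 * k then 24 * k + 21 + 6 * t else
  if t = 2 * k then 36 * k + 19 else
  if t < 3 * k then 48 * k + 20 - 6 * t else
  if t < 6 * k + 1 then 36 * k + 21 - 2 * t else
  if t = 6 * k + 1 then 30 * k + 22 else
  if t = 6 * k + 2 then 36 * k + 21 else
  48 * k + 33

lemma q2s (k t : ℕ) (hk : 1 ≤ k) (ht : t < 2 * (3 * k + 2)) :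
    (t = 0 ∧ q2 k t = 36 * k + 20) ∨
    (0 < t ∧ t < k ∧ q2 k t + 6 * t = 36 * k + 19) ∨
    (k ≤ t ∧ t = k ∧ q2 k t = 12 * k + 10) ∨
    (k < t ∧ t < 2 * k ∧ q2 k t = 24 * k + 21 + 6 * t) ∨
    (2 * k ≤ t ∧ t = 2 * k ∧ q2 k t = 36 * k + 19) ∨
    (2 * k < t ∧ t < 3 * k ∧ q2 k t + 6 * t = 48 * k + 20) ∨
    (3 * k ≤ t ∧ t < 6 * k + 1 ∧ q2 k t + 2 * t = 36 * k + 21) ∨
    (6 * k + 1 ≤ t ∧ t = 6 * k + 1 ∧ q2 k t = 30 * k + 22) ∨
    (6 * k + 1 < t ∧ t = 6 * k + 2 ∧ q2 k t = 36 * k + 21) ∨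
    (6 * k + 2 < t ∧ q2 k t = 48 * k + 33) := by
  have := hk
  have := ht
  unfold q2
  split_ifs
  · left; omega
  · right; left; omega
  · right; right; left; omega
  · right; right; right; left; omega
  · right; right; right; right; left; omega
  · right; right; right; right; right; left; omega
  · right; right; right; right; right; right; left; omega
  · right; right; right; right; right; right; right; left; omega
  · right; right; right; right; right; right; right; right; left; omega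
  · right; right; right; right; right; right; right; right; right; omega

lemma g2_re (k : ℕ) (hk : 1 ≤ k) : ∀ t < 2 * (3 * k + 2), e2 k t = (3 * k + 2) + 1 ∨ (2 * (3 * k + 2) + 2 ≤ e2 k t ∧ e2 k t ≤ 4 * (3 * k + 2)) ∨
    (6 * (3 * k + 2) + 2 ≤ e2 k t ∧ e2 k t ≤ 8 * (3 * k + 2) + 1) :=
  fun t ht => by
    rcases e2s k t hk ht with h | h | h | h | h | h | h <;> omega

lemma g2_ro (k : ℕ) (hk : 1 ≤ k) : ∀ t < 2 * (3 * k + 2), o2 k t = (3 * k + 2) + 1 ∨ (2 * (3 * k + 2) + 2 ≤ o2 k t ∧ o2 k t ≤ 4 * (3 * k + 2)) ∨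
    (6 * (3 * k + 2) + 2 ≤ o2 k t ∧ o2 k t ≤ 8 * (3 * k + 2) + 1) :=
  fun t ht => by
    rcases o2s k t hk ht with h | h | h | h | h | h | h | h <;> omega

lemma g2_ee (k : ℕ) (hk : 1 ≤ k) : ∀ i j, i < j → j < 2 * (3 * k + 2) → e2 k i ≠ e2 k j :=
  fun i j hij hj => by
    rcases e2s k i hk (by omega) with h | h | h | h | h | h | h <;>
    rcases e2s k j hk hj with h' | h' | h' | h' | h' | h' | h' <;> omega

lemma g2_oo (k : ℕ) (hk : 1 ≤ k) : ∀ i j, i < j → j < 2 * (3 * k + 2) → o2 k i ≠ o2 k j :=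
  fun i j hij hj => by
    rcases o2s k i hk (by omega) with h | h | h | h | h | h | h | h <;>
    rcases o2s k j hk hj with h' | h' | h' | h' | h' | h' | h' | h' <;> omega

lemma g2_eo (k : ℕ) (hk : 1 ≤ k) : ∀ i j, i < 2 * (3 * k + 2) → j < 2 * (3 * k + 2) → e2 k i ≠ o2 k j :=
  fun i j hi hj => by
    rcases e2s k i hk hi with h | h | h | h | h | h | h <;>
    rcases o2s k j hk hj with h' | h' | h' | h' | h' | h' | h' | h' <;> omega

lemma g2_hp (k : ℕ) (hk : 1 ≤ k) : ∀ t < 2 * (3 * k + 2), e2 k t + o2 k t = p2 k t :=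
  fun t ht => by
    rcases e2s k t hk ht with h1 | h1 | h1 | h1 | h1 | h1 | h1 <;>
    rcases o2s k t hk ht with h2 | h2 | h2 | h2 | h2 | h2 | h2 | h2 <;> try (exfalso; omega)
    all_goals rcases p2s k t hk ht with h3 | h3 | h3 | h3 | h3 | h3 | h3 | h3 | h3 <;> omega

lemma g2_hq (k : ℕ) (hk : 1 ≤ k) : ∀ t, t + 1 < 2 * (3 * k + 2) → o2 k t + e2 k (t + 1) = q2 k t :=
  fun t ht => by
    rcases e2s k (t + 1) hk ht with h1 | h1 | h1 | h1 | h1 | h1 | h1 <;>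
    rcases o2s k t hk (by omega) with h2 | h2 | h2 | h2 | h2 | h2 | h2 | h2 <;> try (exfalso; omega)
    all_goals rcases q2s k t hk (by omega) with h3 | h3 | h3 | h3 | h3 | h3 | h3 | h3 | h3 | h3 <;> omega

lemma g2_hq' (k : ℕ) (hk : 1 ≤ k) : o2 k (2 * (3 * k + 2) - 1) + e2 k 0 = q2 k (2 * (3 * k + 2) - 1) :=
  by
    rcases e2s k 0 hk (by omega) with h1 | h1 | h1 | h1 | h1 | h1 | h1 <;>
    rcases o2s k (2 * (3 * k + 2) - 1) hk (by omega) with h2 | h2 | h2 | h2 | h2 | h2 | h2 | h2 <;> try (exfalso; omega)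
    all_goals rcases q2s k (2 * (3 * k + 2) - 1) hk (by omega) with h3 | h3 | h3 | h3 | h3 | h3 | h3 | h3 | h3 | h3 <;> omega

lemma g2_rp (k : ℕ) (hk : 1 ≤ k) : ∀ t < 2 * (3 * k + 2), p2 k t = 4 * (3 * k + 2) + 2 ∨ (8 * (3 * k + 2) + 3 ≤ p2 k t ∧ p2 k t ≤ 12 * (3 * k + 2)) ∨ p2 k t = 16 * (3 * k + 2) + 1 :=
  fun t ht => by
    rcases p2s k t hk ht with h | h | h | h | h | h | h | h | h <;> omega

lemma g2_rq (k : ℕ) (hk : 1 ≤ k) : ∀ t < 2 * (3 * k + 2), q2 k t = 4 * (3 * k + 2) + 2 ∨ (8 * (3 * k + 2) + 3 ≤ q2 k t ∧ q2 k t ≤ 12 * (3 * k + 2)) ∨ q2 k t = 16 * (3 * k + 2) + 1 :=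
  fun t ht => by
    rcases q2s k t hk ht with h | h | h | h | h | h | h | h | h | h <;> omega

lemma g2_pp (k : ℕ) (hk : 1 ≤ k) : ∀ i j, i < j → j < 2 * (3 * k + 2) → p2 k i ≠ p2 k j :=
  fun i j hij hj => by
    rcases p2s k i hk (by omega) with h | h | h | h | h | h | h | h | h <;>
    rcases p2s k j hk hj with h' | h' | h' | h' | h' | h' | h' | h' | h' <;> omega

lemma g2_qq (k : ℕ) (hk : 1 ≤ k) : ∀ i j, i < j → j < 2 * (3 * k + 2) → q2 k i ≠ q2 k j :=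
  fun i j hij hj => by
    rcases q2s k i hk (by omega) with h | h | h | h | h | h | h | h | h | h <;>
    rcases q2s k j hk hj with h' | h' | h' | h' | h' | h' | h' | h' | h' | h' <;> omega

lemma g2_pq (k : ℕ) (hk : 1 ≤ k) : ∀ i j, i < 2 * (3 * k + 2) → j < 2 * (3 * k + 2) → p2 k i ≠ q2 k j :=
  fun i j hi hj => by
    rcases p2s k i hk hi with h | h | h | h | h | h | h | h | h <;>
    rcases q2s k j hk hj with h' | h' | h' | h' | h' | h' | h' | h' | h' | h' <;> omega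

lemma good2 (k : ℕ) (hk : 1 ≤ k) : GoodB (3 * k + 2) (e2 k) (o2 k) (p2 k) (q2 k) :=
  ⟨g2_re k hk, g2_ro k hk, g2_ee k hk, g2_oo k hk, g2_eo k hk, g2_hp k hk, g2_hq k hk, g2_hq' k hk, g2_rp k hk, g2_rq k hk, g2_pp k hk, g2_qq k hk, g2_pq k hk⟩

end Pool.Agent.W5h70.EMT
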